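import Mathlib
import Pool.Agent.Helper99.BK.Stmts

/-!
# Roots of binary cubic forms (module THE)
-/

namespace Pool.Helper99.BK

theorem the_root (x : ℝ) (H a b c e : ℝ) (hH : 1 ≤ H) (ha : 1 ≤ a) (hb : b ≤ H) (hc : c ≤ H)
    (he : e ≤ H) (hx : 0 ≤ x) (h : a * x ^ 3 ≤ b * x ^ 2 + c * x + e) : x ≤ 2 * H := by
  by_contra hcon
  push Not at hcon
  have h1 : 1 + H ≤ x := by linarith
  have h2 : x ^ 3 ≤ a * x ^ 3 := by nlinarith [pow_nonneg hx 3]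
  have h3 : b * x ^ 2 ≤ H * x ^ 2 := mul_le_mul_of_nonneg_right hb (by positivity)
  have h4 : c * x ≤ H * x := mul_le_mul_of_nonneg_right hc hx
  have h5 : H * (x ^ 2 + x + 1) ≤ (x - 1) * (x ^ 2 + x + 1) :=
    mul_le_mul_of_nonneg_right (by linarith) (by positivity)
  nlinarith

theorem the_poly (α : Fin 3 → ℂ) (a b c e : ℂ) (hb : b = -a * (α 0 + α 1 + α 2))
    (hc : c = a * (α 0 * α 1 + α 0 * α 2 + α 1 * α 2)) (he : e = -a * (α 0 * α 1 * α 2)) :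
    ∀ i, a * α i ^ 3 + b * α i ^ 2 + c * α i + e = 0 := by
  intro i
  fin_cases i <;> (simp; rw [hb, hc, he]; ring)

theorem the_bound (α : Fin 3 → ℂ) (a b c e : ℤ) (H : ℝ) (hH : 1 ≤ H) (ha0 : a ≠ 0)
    (hb : |(b : ℝ)| ≤ H) (hc : |(c : ℝ)| ≤ H) (he : |(e : ℝ)| ≤ H)
    (hp : ∀ i, (a : ℂ) * α i ^ 3 + b * α i ^ 2 + c * α i + e = 0) (i : Fin 3) : ‖α i‖ ≤ 2 * H := by
  have h1 : (a : ℂ) * α i ^ 3 = -(b * α i ^ 2 + c * α i + e) := by linear_combination hp i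
  have h2 : ‖(a : ℂ) * α i ^ 3‖ ≤ |(b : ℝ)| * ‖α i‖ ^ 2 + |(c : ℝ)| * ‖α i‖ + |(e : ℝ)| := by
    rw [h1, norm_neg]
    refine (norm_add₃_le).trans ?_
    rw [norm_mul, norm_mul, norm_pow, Complex.norm_intCast, Complex.norm_intCast, Complex.norm_intCast]
  rw [norm_mul, norm_pow, Complex.norm_intCast] at h2
  refine the_root ‖α i‖ H |(a : ℝ)| |(b : ℝ)| |(c : ℝ)| |(e : ℝ)| hH ?_ hb hc he (norm_nonneg _) h2
  have : 1 ≤ |a| := Int.one_le_abs ha0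
  exact_mod_cast this

theorem the_dsc (α : Fin 3 → ℂ) (a b c e : ℤ) (hb : (b : ℂ) = -a * (α 0 + α 1 + α 2))
    (hc : (c : ℂ) = a * (α 0 * α 1 + α 0 * α 2 + α 1 * α 2)) (he : (e : ℂ) = -a * (α 0 * α 1 * α 2)) :
    ((dsc a b c e : ℤ) : ℂ) = a ^ 4 * ((α 0 - α 1) ^ 2 * (α 0 - α 2) ^ 2 * (α 1 - α 2) ^ 2) := by
  unfold dsc
  push_cast
  rw [hb, hc, he]
  ring

theorem the_lower (x y z H a : ℝ) (hH : 1 ≤ H) (hx : 0 ≤ x) (hy : 0 ≤ y) (hz : 0 ≤ z) (ha : 0 ≤ a)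
    (haH : a ≤ H) (hyH : y ≤ 4 * H) (hzH : z ≤ 4 * H) (h : 1 ≤ a ^ 4 * (x ^ 2 * y ^ 2 * z ^ 2)) :
    1 ≤ 16 * H ^ 4 * x := by
  have h1 : a ^ 4 ≤ H ^ 4 := pow_le_pow_left₀ ha haH 4
  have h2 : y ^ 2 ≤ (4 * H) ^ 2 := pow_le_pow_left₀ hy hyH 2
  have h3 : z ^ 2 ≤ (4 * H) ^ 2 := pow_le_pow_left₀ hz hzH 2
  have h4 : a ^ 4 * (x ^ 2 * y ^ 2 * z ^ 2) ≤ H ^ 4 * (x ^ 2 * (4 * H) ^ 2 * (4 * H) ^ 2) := by
    gcongr
  have h5 : 1 ≤ (16 * H ^ 4 * x) ^ 2 := by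
    calc (1 : ℝ) ≤ _ := h
      _ ≤ _ := h4
      _ = _ := by ring
  have h6 : (0 : ℝ) ≤ 16 * H ^ 4 * x := by positivity
  nlinarith

theorem the_int (α : Fin 3 → ℂ) (a b c e : ℤ)
    (hp : ∀ i, (a : ℂ) * α i ^ 3 + b * α i ^ 2 + c * α i + e = 0) (i : Fin 3) :
    IsIntegral ℤ ((a : ℂ) * α i) := by
  refine ⟨Polynomial.X ^ 3 + Polynomial.C b * Polynomial.X ^ 2 + Polynomial.C (a * c) * Polynomial.X +
    Polynomial.C (a ^ 2 * e), ?_, ?_⟩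
  · monicity!
  · simp only [Polynomial.eval₂_add, Polynomial.eval₂_mul, Polynomial.eval₂_pow, Polynomial.eval₂_X,
      Polynomial.eval₂_C]
    have h := hp i
    simp only [algebraMap_int_eq, eq_intCast, Int.cast_mul, Int.cast_pow]
    linear_combination (a : ℂ) ^ 2 * h

theorem the_quot (A1 A2 A3 a D : ℂ) (x y z : ℂ) (ha : a ≠ 0) (h1 : A1 = a * x) (h2 : A2 = a * y)
    (h3 : A3 = a * z) (hD : D = a ^ 4 * ((x - y) ^ 2 * (x - z) ^ 2 * (y - z) ^ 2)) (hxz : x ≠ z) :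
    a ^ 2 * D * ((x - y) / (x - z)) = (A1 - A2) ^ 3 * (A1 - A3) * (A2 - A3) ^ 2 := by
  have hz : x - z ≠ 0 := sub_ne_zero.2 hxz
  rw [hD, h1, h2, h3]
  field_simp

theorem st_THE : ST_THE := by
  intro α a b c e H hH ha0 ha hb hc he hvb hvc hve hD
  have hp := the_poly α a b c e hvb hvc hve
  have hbd := the_bound α a b c e H hH ha0 hb hc he hp
  have hdsc := the_dsc α a b c e hvb hvc hve
  have hint := the_int α a b c e hp
  have hdiff : ∀ i j, ‖α i - α j‖ ≤ 4 * H := fun i j =>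
    (norm_sub_le _ _).trans (by linarith [hbd i, hbd j])
  have haC : (a : ℂ) ≠ 0 := by exact_mod_cast ha0
  have hone : 1 ≤ |(a : ℝ)| ^ 4 * (‖α 0 - α 1‖ ^ 2 * ‖α 0 - α 2‖ ^ 2 * ‖α 1 - α 2‖ ^ 2) := by
    have h1 : ‖((dsc a b c e : ℤ) : ℂ)‖ = |(a : ℝ)| ^ 4 * (‖α 0 - α 1‖ ^ 2 * ‖α 0 - α 2‖ ^ 2 * ‖α 1 - α 2‖ ^ 2) := by
      rw [hdsc]
      simp only [norm_mul, norm_pow, Complex.norm_intCast]
    rw [← h1, Complex.norm_intCast]
    have : 1 ≤ |dsc a b c e| := Int.one_le_abs hD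
    exact_mod_cast this
  have hdC : ((dsc a b c e : ℤ) : ℂ) ≠ 0 := by exact_mod_cast hD
  have hne : ∀ i j, i ≠ j → α i ≠ α j := by
    intro i j hij h
    apply hdC
    rw [hdsc]
    fin_cases i <;> fin_cases j <;> simp_all
  -- symmetric form of the product of the differences
  have hsym : ∀ i j k, i ≠ j → i ≠ k → j ≠ k →
      ‖α 0 - α 1‖ ^ 2 * ‖α 0 - α 2‖ ^ 2 * ‖α 1 - α 2‖ ^ 2 = ‖α i - α j‖ ^ 2 * ‖α i - α k‖ ^ 2 * ‖α j - α k‖ ^ 2 := by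
    intro i j k hij hik hjk
    have e1 := norm_sub_rev (α 0) (α 1)
    have e2 := norm_sub_rev (α 0) (α 2)
    have e3 := norm_sub_rev (α 1) (α 2)
    fin_cases i <;> fin_cases j <;> fin_cases k <;>
      first
      | (exfalso; simp at hij; done)
      | (exfalso; simp at hik; done)
      | (exfalso; simp at hjk; done)
      | (simp only [Fin.zero_eta, Fin.mk_one, Fin.reduceFinMk, e1, e2, e3]; done)
      | (simp only [Fin.zero_eta, Fin.mk_one, Fin.reduceFinMk, e1, e2, e3]; ring)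
  have hsymC : ∀ i j k, i ≠ j → i ≠ k → j ≠ k →
      ((dsc a b c e : ℤ) : ℂ) = a ^ 4 * ((α i - α j) ^ 2 * (α i - α k) ^ 2 * (α j - α k) ^ 2) := by
    intro i j k hij hik hjk
    rw [hdsc]
    fin_cases i <;> fin_cases j <;> fin_cases k <;>
      first
      | (exfalso; simp at hij; done)
      | (exfalso; simp at hik; done)
      | (exfalso; simp at hjk; done)
      | (simp only [Fin.zero_eta, Fin.mk_one, Fin.reduceFinMk]; done)
      | (simp only [Fin.zero_eta, Fin.mk_one, Fin.reduceFinMk]; ring)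
  refine ⟨fun i j hij => ⟨hdiff i j, ?_⟩, ?_⟩
  · obtain ⟨k, hik, hjk⟩ : ∃ k : Fin 3, i ≠ k ∧ j ≠ k := by
      revert hij
      revert i j
      decide
    have h := hone
    rw [hsym i j k hij hik hjk] at h
    exact the_lower _ _ _ H |(a : ℝ)| hH (norm_nonneg _) (norm_nonneg _) (norm_nonneg _) (abs_nonneg _) ha
      (hdiff i k) (hdiff j k) h
  · intro i j k hij hik hjk
    have h := the_quot ((a : ℂ) * α i) ((a : ℂ) * α j) ((a : ℂ) * α k) a (dsc a b c e : ℤ) (α i) (α j) (α k)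
      haC rfl rfl rfl (hsymC i j k hij hik hjk) (hne i k hik)
    have h2 : ((a ^ 2 * dsc a b c e : ℤ) : ℂ) = (a : ℂ) ^ 2 * ((dsc a b c e : ℤ) : ℂ) := by push_cast; ring
    rw [h2, h]
    exact ((((hint i).sub (hint j)).pow 3).mul ((hint i).sub (hint k))).mul (((hint j).sub (hint k)).pow 2)

end Pool.Helper99.BK
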